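import Pool.Agent.Work.MP_8b4bd2_al.Main2

namespace Pool.Agent.Results.MP_8b4bd2_al.PerpHereditary

open Pool.Agent.Work.MP_8b4bd2_al CategoryTheory Limits

/-- Let `T` be the stable category of vector bundles on `X(2,3,7)` with the triangulation of Happel.
For every exceptional object `F` of `T`, the right perpendicular category `F^⊥` is piecewise
hereditary. -/
theorem result (k : Type*) [Field k] (T : Type*) [Category T] [HasZeroObject T] [Preadditive T]
    [HasShift T ℤ] [∀ n : ℤ, (shiftFunctor T n).Additive] [Pretriangulated T] [IsTriangulated T]
    [Linear k T] (hT : StableCategory (lineBundle (Sdeg k)) (Distinguished (Sdeg k)) T)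
    (F : T) (hF : IsExceptional k F) : PiecewiseHereditary (perp F).FullSubcategory :=
  main_vect hT F hF

/-- The hypothesis `hT` is not vacuous: the `k`-linear triangulated category `StabVect k` of totally
acyclic complexes of finite sums of line bundles is such a `T`. -/
theorem stable_exists (k : Type*) [Field k] :
    Nonempty (StableCategory (lineBundle (Sdeg k)) (Distinguished (Sdeg k)) (StabVect k)) :=
  exists_stable k

end Pool.Agent.Results.MP_8b4bd2_al.PerpHereditary
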